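import Pool.Agent.H96.LZ.ODE

/-!
# MP_895f30, Lazard block (helper70): the part BCH
-/

set_option autoImplicit false

open Finset Polynomial

namespace H96.LZ

open H70.LZ

section basics
variable {R S : Type} [CommRing R] [Ring S] [Algebra R S] {c : ℕ}

/-- the filtration of the polynomial ring -/
noncomputable def polF (A : Fil R S c) (i : ℕ) : Submodule R S[X] where
  carrier := {f | ∀ k, f.coeff k ∈ A.F (max i k)}
  add_mem' := by
    intro a b ha hb k
    rw [coeff_add]
    exact (A.F _).add_mem (ha k) (hb k)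
  zero_mem' := by
    intro k
    rw [coeff_zero]
    exact (A.F _).zero_mem
  smul_mem' := by
    intro r a ha k
    rw [coeff_smul]
    exact (A.F _).smul_mem r (ha k)

theorem mem_polF (A : Fil R S c) (i : ℕ) (f : S[X]) :
    f ∈ polF A i ↔ ∀ k, f.coeff k ∈ A.F (max i k) := Iff.rfl

/-- the filtration of the polynomial ring -/
noncomputable def polFil (A : Fil R S c) : Fil R S[X] c where
  F := polF A
  anti := by
    intro i f hf k
    exact F_anti A (max_le_max (Nat.le_succ i) le_rfl) (hf k)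
  one := by
    intro k
    rw [coeff_one]
    split_ifs with h
    · subst h
      simpa using A.one
    · exact (A.F _).zero_mem
  mul := by
    intro i j f g hf hg k
    rw [coeff_mul]
    refine (A.F _).sum_mem fun ab hab => ?_
    have h : ab.1 + ab.2 = k := by simpa using hab
    have h1 := A.mul _ _ _ _ (hf ab.1) (hg ab.2)
    refine F_anti A ?_ h1
    have h2 := le_max_left i ab.1
    have h3 := le_max_right i ab.1
    have h4 := le_max_left j ab.2
    have h5 := le_max_right j ab.2
    exact max_le (by omega) (by omega)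
  bot := by
    rw [eq_bot_iff]
    intro f hf
    rw [Submodule.mem_bot]
    ext k
    have h := hf k
    rw [F_bot A (le_max_left _ _), Submodule.mem_bot] at h
    rw [h, coeff_zero]
  inv := A.inv

/-- `e^x` under an `R`-linear ring homomorphism -/
theorem map_ex {T : Type} [Ring T] [Algebra R T] (φ : S →+* T) (hφ : ∀ (r : R) (s : S),
    φ (r • s) = r • φ s) (x : S) : φ (ex R c x) = ex R c (φ x) := by
  unfold ex
  rw [map_sum]
  refine Finset.sum_congr rfl fun i _ => ?_
  rw [hφ, map_pow]

theorem coeff_cm (f g : S[X]) (k : ℕ) :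
    (cm f g).coeff k = ∑ ab ∈ antidiagonal k, cm (f.coeff ab.1) (g.coeff ab.2) := by
  unfold cm
  rw [coeff_sub, coeff_mul, coeff_mul, Finset.sum_sub_distrib]
  congr 1
  rw [← Finset.Nat.sum_antidiagonal_swap]
  rfl

/-- coefficientwise membership of a commutator -/
theorem cm_coeff_mem (P Q T : Submodule R S) (h : ∀ a ∈ P, ∀ b ∈ Q, cm a b ∈ T) (f g : S[X])
    (hf : ∀ k, f.coeff k ∈ P) (hg : ∀ k, g.coeff k ∈ Q) (k : ℕ) : (cm f g).coeff k ∈ T := by
  rw [coeff_cm]
  exact T.sum_mem fun ab _ => h _ (hf _) _ (hg _)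

theorem adp_coeff_mem (P : Submodule R S) (h : ∀ a ∈ P, ∀ b ∈ P, cm a b ∈ P) (f g : S[X])
    (hf : ∀ k, f.coeff k ∈ P) (hg : ∀ k, g.coeff k ∈ P) (j k : ℕ) : (adp f j g).coeff k ∈ P := by
  induction j generalizing k with
  | zero => exact hg k
  | succ n ih =>
    rw [adp_succ]
    exact cm_coeff_mem P P P h f _ hf ih k

theorem smul_unit_mem (P : Submodule R S) {n : ℕ} (hn : IsUnit ((n : ℕ) : R)) (s : S)
    (h : s * (n : S) ∈ P) : s ∈ P := by
  obtain ⟨u, hu⟩ := hn
  have h1 : s * (n : S) = (u : R) • s := by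
    rw [hu, Algebra.smul_def, map_natCast, Nat.cast_comm]
  rw [h1] at h
  have h2 := P.smul_mem ((u⁻¹ : Rˣ) : R) h
  rwa [smul_smul, Units.inv_mul, one_smul] at h2

theorem adp_zero_of_comm {z w : S} (h : cm z w = 0) (j : ℕ) : adp z (j + 1) w = 0 := by
  induction j with
  | zero => rw [adp_succ, adp_zero, h]
  | succ n ih =>
    rw [adp_succ, ih]
    unfold cm
    rw [mul_zero, zero_mul, sub_zero]

end basics

theorem t_BCH (hEXB : S_EXB) (hEXA : S_EXA) (hODE : S_ODE) : S_BCH := by
  intro R S _ _ _ c A m hm hLie x hx y hy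
  rcases Nat.eq_zero_or_pos c with hc | hc
  · subst hc
    have h0 : ∀ w ∈ m, w = 0 := by
      intro w hw
      have h1 := hm hw
      have h2 : A.F 1 = ⊥ := A.bot
      rwa [h2, Submodule.mem_bot] at h1
    refine ⟨0, m.zero_mem, ?_, ?_⟩
    · rw [h0 x hx, h0 y hy, (hEXA R S 0 A).1, mul_one]
    · rw [h0 x hx, h0 y hy]
      simp
  have hx1 := hm hx
  have hy1 := hm hy
  -- the two polynomials `t x` and `y`
  have htx : (monomial 1 x : S[X]) ∈ (polFil A).F 1 := by
    intro k
    rw [coeff_monomial]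
    split_ifs with h
    · subst h
      simpa using hx1
    · exact (A.F _).zero_mem
  have hcy : (C y : S[X]) ∈ (polFil A).F 1 := by
    intro k
    rw [coeff_C]
    split_ifs with h
    · subst h
      simpa using hy1
    · exact (A.F _).zero_mem
  obtain ⟨b1, b2, b3⟩ := hEXB R S[X] c (polFil A)
  obtain ⟨a1, a2⟩ := hEXA R S[X] c (polFil A)
  obtain ⟨Z, hZ1, hZ⟩ := b3 (ex R c (monomial 1 x : S[X]) * ex R c (C y : S[X])) (by
    have h1 := b1 _ htx
    have h2 := b1 _ hcy
    have h3 := (polFil A).mul 1 1 _ _ h1 h2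
    have h4 := F_anti (polFil A) (show 1 ≤ 1 + 1 by omega) h3
    have h5 := ((polFil A).F 1).add_mem (((polFil A).F 1).add_mem h1 h2) h4
    convert h5 using 1
    noncomm_ring)
  -- the derivative
  have hD : ∀ a b : S[X], derivative (a * b) = derivative a * b + a * derivative b :=
    fun a b => derivative_mul
  let D : S[X] →ₗ[R] S[X] := (derivative (R := S)).restrictScalars R
  have hDd : ∀ a, D a = derivative a := fun a => rfl
  have hZ' : ∀ f ∈ (polFil A).F 1, D f ∈ (polFil A).F 1 := by
    intro f hf k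
    rw [hDd, coeff_derivative]
    have h1 := hf (k + 1)
    have h2 : f.coeff (k + 1) * ((k : S) + 1) = ((k + 1 : ℕ) : R) • f.coeff (k + 1) := by
      rw [Algebra.smul_def, map_natCast, ← Nat.cast_succ, Nat.cast_comm]
    rw [h2]
    exact F_anti A (max_le_max le_rfl (Nat.le_succ k)) ((A.F _).smul_mem _ h1)
  have o1 := hODE R S[X] c (polFil A) D hD Z hZ1 (hZ' Z hZ1)
  have o2 := hODE R S[X] c (polFil A) D hD (monomial 1 x) htx (hZ' _ htx)
  have o3 := hODE R S[X] c (polFil A) D hD (C y) hcy (hZ' _ hcy)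
  have hDy : D (C y) = 0 := by rw [hDd, derivative_C]
  have hDx : D (monomial 1 x) = C x := by
    rw [hDd, derivative_monomial]
    simp
  have o3' : D (ex R c (C y : S[X])) = 0 := by
    rw [o3, hDy]
    have : ∀ j ∈ range c, Ring.inverse (((j + 1).factorial : ℕ) : R) • adp (C y : S[X]) j 0 = 0 := by
      intro j _
      have h1 : adp (C y : S[X]) j 0 = 0 := by
        cases j with
        | zero => rfl
        | succ n => exact adp_zero_of_comm (by unfold cm; rw [mul_zero, zero_mul, sub_zero]) n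
      rw [h1, smul_zero]
    rw [Finset.sum_eq_zero this, zero_mul]
  have o2' : D (ex R c (monomial 1 x : S[X])) = C x * ex R c (monomial 1 x : S[X]) := by
    rw [o2, hDx]
    obtain ⟨d, rfl⟩ : ∃ d, c = d + 1 := ⟨c - 1, by omega⟩
    rw [Finset.sum_range_succ']
    have : ∀ j ∈ range d, Ring.inverse (((j + 1 + 1).factorial : ℕ) : R) •
        adp (monomial 1 x : S[X]) (j + 1) (C x) = 0 := by
      intro j _
      have h1 : adp (monomial 1 x : S[X]) (j + 1) (C x) = 0 := by
        refine adp_zero_of_comm ?_ j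
        unfold cm
        rw [monomial_mul_C, C_mul_monomial, sub_self]
      rw [h1, smul_zero]
    rw [Finset.sum_eq_zero this, zero_add, adp_zero]
    simp
  have hDe : D (ex R c Z) = C x * ex R c Z := by
    rw [hZ, hDd, hD, ← hDd, ← hDd, o2', o3', mul_zero, add_zero, mul_assoc]
  -- the differential equation
  have hinv : ex R c Z * ex R c (-Z) = 1 := by
    have h1 := a2 Z hZ1 (-Z) (((polFil A).F 1).neg_mem hZ1) ((Commute.refl Z).neg_right)
    rw [add_neg_cancel, a1] at h1
    exact h1.symm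
  have hstar : ∑ j ∈ range c, Ring.inverse (((j + 1).factorial : ℕ) : R) • adp Z j (D Z) = C x := by
    have h1 : (∑ j ∈ range c, Ring.inverse (((j + 1).factorial : ℕ) : R) • adp Z j (D Z)) *
        ex R c Z = C x * ex R c Z := by rw [← o1, hDe]
    have h2 := congrArg (fun w => w * ex R c (-Z)) h1
    simp only [mul_assoc, hinv, mul_one] at h2
    exact h2
  obtain ⟨d, rfl⟩ : ∃ d, c = d + 1 := ⟨c - 1, by omega⟩
  have hstar' : ∀ k, (D Z).coeff k = (C x).coeff k -
      ∑ j ∈ range d, Ring.inverse (((j + 1 + 1).factorial : ℕ) : R) •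
        (adp Z (j + 1) (D Z)).coeff k := by
    intro k
    have h1 := congrArg (fun w => w.coeff k) hstar
    rw [Finset.sum_range_succ'] at h1
    simp only [coeff_add, finsetSum_coeff, coeff_smul, adp_zero, zero_add, Nat.factorial_one,
      Nat.cast_one, Ring.inverse_one, one_smul] at h1
    rw [← h1]
    abel
  -- the coefficients of `Z`
  have hZtop : ∀ k, d + 1 < k → Z.coeff k = 0 := by
    intro k hk
    have h1 := hZ1 k
    rw [F_bot A (le_trans (by omega) (le_max_right 1 k)), Submodule.mem_bot] at h1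
    exact h1
  have hZF : ∀ k, Z.coeff k ∈ A.F 1 := fun k => F_anti A (le_max_left 1 k) (hZ1 k)
  obtain ⟨e1, e2, e3⟩ := hEXB R S (d + 1) A
  have hZ0 : Z.coeff 0 = y := by
    have h1 := congrArg (constantCoeff (R := S)) hZ
    have hsm : ∀ (r : R) (s : S[X]), (constantCoeff (R := S)) (r • s) =
        r • (constantCoeff (R := S)) s := by
      intro r s
      rw [constantCoeff_apply, constantCoeff_apply, coeff_smul]
    rw [map_mul, map_ex _ hsm, map_ex _ hsm, map_ex _ hsm] at h1
    simp only [constantCoeff_apply, coeff_C_zero] at h1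
    have h2 : (monomial 1 x : S[X]).coeff 0 = 0 := by
      rw [coeff_monomial]
      simp
    rw [h2, (hEXA R S (d + 1) A).1, one_mul] at h1
    have h3 := (e2 (d + 1 + 1) (by omega) (Z.coeff 0) (hZF 0) y hy1).mpr (by
      rw [h1, sub_self]
      exact (A.F _).zero_mem)
    rw [A.bot, Submodule.mem_bot, sub_eq_zero] at h3
    exact h3
  have hcoefD : ∀ k, (D Z).coeff k = Z.coeff (k + 1) * ((k + 1 : ℕ) : S) := by
    intro k
    rw [hDd, coeff_derivative, Nat.cast_succ]
  have hcx : ∀ k, (C x : S[X]).coeff k ∈ m := by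
    intro k
    rw [coeff_C]
    split_ifs
    · exact hx
    · exact m.zero_mem
  -- CLAIM 1
  have claim1 : ∀ s, ∀ k, Z.coeff k ∈ m ⊔ A.F (s + 1) := by
    intro s
    induction s with
    | zero => intro k; exact Submodule.mem_sup_right (hZF k)
    | succ s ih =>
      have hcm : ∀ a ∈ m ⊔ A.F (s + 1), ∀ b ∈ m ⊔ A.F (s + 1), cm a b ∈ m ⊔ A.F (s + 1 + 1) := by
        intro a ha b hb
        obtain ⟨a1, ha1, a2, ha2, rfl⟩ := Submodule.mem_sup.mp ha
        obtain ⟨b1, hb1, b2, hb2, rfl⟩ := Submodule.mem_sup.mp hb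
        have q1 : cm a1 b1 ∈ m := hLie _ ha1 _ hb1
        have q2 : cm a1 b2 ∈ A.F (1 + (s + 1)) := cm_mem A (hm ha1) hb2
        have q3 : cm a2 b1 ∈ A.F ((s + 1) + 1) := cm_mem A ha2 (hm hb1)
        have q4 : cm a2 b2 ∈ A.F ((s + 1) + (s + 1)) := cm_mem A ha2 hb2
        have q5 : cm (a1 + a2) (b1 + b2) = cm a1 b1 + (cm a1 b2 + cm a2 b1 + cm a2 b2) := by
          unfold cm
          noncomm_ring
        rw [q5]
        refine Submodule.mem_sup.mpr ⟨_, q1, _, ?_, rfl⟩
        refine (A.F _).add_mem ((A.F _).add_mem ?_ q3) (F_anti A (by omega) q4)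
        exact F_anti A (by omega) q2
      have hcm' : ∀ a ∈ m ⊔ A.F (s + 1), ∀ b ∈ m ⊔ A.F (s + 1), cm a b ∈ m ⊔ A.F (s + 1) := by
        intro a ha b hb
        exact sup_le_sup_left (A.anti (s + 1)) m (hcm a ha b hb)
      have hDZ : ∀ k, (D Z).coeff k ∈ m ⊔ A.F (s + 1) := by
        intro k
        rw [hcoefD]
        have h2 : Z.coeff (k + 1) * ((k + 1 : ℕ) : S) = ((k + 1 : ℕ) : R) • Z.coeff (k + 1) := by
          rw [Algebra.smul_def, map_natCast, Nat.cast_comm]
        rw [h2]
        exact Submodule.smul_mem _ _ (ih (k + 1))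
      have hDZ2 : ∀ k, (D Z).coeff k ∈ m ⊔ A.F (s + 1 + 1) := by
        intro k
        rw [hstar']
        refine Submodule.sub_mem _ (Submodule.mem_sup_left (hcx k)) ?_
        refine Submodule.sum_mem _ fun j _ => Submodule.smul_mem _ _ ?_
        rw [adp_succ]
        exact cm_coeff_mem _ _ _ hcm Z _ ih (fun k => adp_coeff_mem _ hcm' Z _ ih hDZ j k) k
      intro k
      cases k with
      | zero => rw [hZ0]; exact Submodule.mem_sup_left hy
      | succ k =>
        by_cases hk : k + 1 ≤ d + 1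
        · have h1 := hDZ2 k
          rw [hcoefD] at h1
          exact smul_unit_mem _ (A.inv (k + 1) (by omega) hk) _ h1
        · rw [hZtop _ (by omega)]
          exact Submodule.zero_mem _
  have hZm : ∀ k, Z.coeff k ∈ m := by
    intro k
    have h1 := claim1 (d + 1) k
    rwa [A.bot, sup_bot_eq] at h1
  have hDZm : ∀ k, (D Z).coeff k ∈ m := by
    intro k
    rw [hcoefD]
    have h2 : Z.coeff (k + 1) * ((k + 1 : ℕ) : S) = ((k + 1 : ℕ) : R) • Z.coeff (k + 1) := by
      rw [Algebra.smul_def, map_natCast, Nat.cast_comm]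
    rw [h2]
    exact Submodule.smul_mem _ _ (hZm (k + 1))
  -- CLAIM 2
  have hspan : ∀ a ∈ m, ∀ b ∈ m, cm a b ∈ cmSpan R m := fun a ha b hb =>
    Submodule.subset_span ⟨a, ha, b, hb, rfl⟩
  have claim2 : ∀ k, (D Z).coeff k - (C x).coeff k ∈ cmSpan R m := by
    intro k
    rw [hstar', sub_sub_cancel_left]
    refine Submodule.neg_mem _ (Submodule.sum_mem _ fun j _ => Submodule.smul_mem _ _ ?_)
    rw [adp_succ]
    exact cm_coeff_mem _ _ _ hspan Z _ hZm (fun k => adp_coeff_mem _ hLie Z _ hZm hDZm j k) k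
  -- evaluation at `t = 1`
  let φ : S[X] →+* S := eval₂RingHom' (RingHom.id S) 1 (fun a => Commute.one_right _)
  have hφ : ∀ f : S[X], φ f = f.sum fun _ a => a := by
    intro f
    change eval₂ (RingHom.id S) 1 f = _
    rw [eval₂_eq_sum]
    simp
  have hφs : ∀ (r : R) (f : S[X]), φ (r • f) = r • φ f := by
    intro r f
    rw [Algebra.smul_def, Algebra.smul_def, map_mul, Polynomial.algebraMap_apply]
    congr 1
    change eval₂ (RingHom.id S) 1 (C (algebraMap R S r)) = _
    rw [eval₂_C]
    rfl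
  have hφZ : φ Z = ∑ k ∈ range (d + 1 + 1), Z.coeff k := by
    rw [hφ, sum_over_range' Z (fun _ => rfl) (max (Z.natDegree + 1) (d + 1 + 1))
      (lt_of_lt_of_le (Nat.lt_succ_self _) (le_max_left _ _))]
    symm
    refine Finset.sum_subset (Finset.range_mono (le_max_right _ _)) ?_
    intro k _ hk
    exact hZtop k (by simpa using hk)
  have hφm : φ (monomial 1 x) = x := by
    change eval₂ (RingHom.id S) 1 (monomial 1 x) = _
    rw [eval₂_monomial]
    simp
  have hφC : φ (C y) = y := by
    change eval₂ (RingHom.id S) 1 (C y) = _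
    rw [eval₂_C]
    rfl
  refine ⟨φ Z, ?_, ?_, ?_⟩
  · rw [hφZ]
    exact m.sum_mem fun k _ => hZm k
  · have h1 := congrArg φ hZ
    rw [map_mul, map_ex _ hφs, map_ex _ hφs, map_ex _ hφs, hφm, hφC] at h1
    exact h1
  · rw [hφZ, Finset.sum_range_succ', Finset.sum_range_succ']
    have h1 : Z.coeff (0 + 1) - x ∈ cmSpan R m := by
      have h := claim2 0
      rw [hcoefD, coeff_C_zero] at h
      simpa using h
    have h2 : ∑ k ∈ range d, Z.coeff (k + 1 + 1) ∈ cmSpan R m := by
      refine Submodule.sum_mem _ fun k hk => ?_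
      have hk' := Finset.mem_range.mp hk
      have h := claim2 (k + 1)
      rw [coeff_C_of_ne_zero (by omega), sub_zero, hcoefD] at h
      exact smul_unit_mem _ (A.inv (k + 1 + 1) (by omega) (by omega)) _ h
    have h3 := Submodule.add_mem _ h2 h1
    convert h3 using 1
    rw [hZ0]
    abel

end H96.LZ
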