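import Pool.Agent.H70.LZ.Stm

/-!
# MP_895f30, Lazard block (helper70): the part ODE
-/

set_option autoImplicit false

open Finset

namespace H96.LZ

open H70.LZ

section basics
variable {R S : Type} [CommRing R] [Ring S] [Algebra R S] {c : ℕ}

theorem F_anti (A : Fil R S c) : Antitone A.F := antitone_nat_of_succ_le A.anti

theorem F_bot (A : Fil R S c) {k : ℕ} (hk : c + 1 ≤ k) : A.F k = ⊥ := by
  have h := F_anti A hk
  rw [A.bot] at h
  exact le_bot_iff.mp h

theorem pow_mem (A : Fil R S c) {x : S} (hx : x ∈ A.F 1) (i : ℕ) : x ^ i ∈ A.F i := by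
  induction i with
  | zero => simpa using A.one
  | succ n ih => rw [pow_succ]; exact A.mul n 1 _ _ ih hx

theorem cm_mem (A : Fil R S c) {i j : ℕ} {x y : S} (hx : x ∈ A.F i) (hy : y ∈ A.F j) :
    cm x y ∈ A.F (i + j) := by
  unfold cm
  refine (A.F (i + j)).sub_mem (A.mul i j x y hx hy) ?_
  have h := A.mul j i y x hy hx
  rwa [add_comm j i] at h

theorem adp_zero (x y : S) : adp x 0 y = y := rfl

theorem adp_succ (x y : S) (n : ℕ) : adp x (n + 1) y = cm x (adp x n y) :=
  Function.iterate_succ_apply' _ _ _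

theorem adp_mem (A : Fil R S c) {x y : S} (hx : x ∈ A.F 1) (hy : y ∈ A.F 1) (j : ℕ) :
    adp x j y ∈ A.F (j + 1) := by
  induction j with
  | zero => simpa [adp] using hy
  | succ n ih =>
    rw [adp_succ]
    have h := cm_mem A hx ih
    rwa [add_comm 1 (n + 1)] at h

theorem fact_unit (A : Fil R S c) {n : ℕ} (hn : n ≤ c) : IsUnit ((n.factorial : ℕ) : R) := by
  induction n with
  | zero => simp
  | succ k ih =>
    rw [Nat.factorial_succ, Nat.cast_mul]
    exact (A.inv (k + 1) (by omega) hn).mul (ih (by omega))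

theorem inv_choose (A : Fil R S c) {j m : ℕ} (h : j + 1 + m ≤ c) :
    Ring.inverse (((j + 1 + m).factorial : ℕ) : R) * (((j + 1 + m).choose (j + 1) : ℕ) : R) =
      Ring.inverse (((j + 1).factorial : ℕ) : R) * Ring.inverse ((m.factorial : ℕ) : R) := by
  have u1 := fact_unit A h
  have u2 := fact_unit A (show j + 1 ≤ c by omega)
  have u3 := fact_unit A (show m ≤ c by omega)
  have e : (((j + 1 + m).choose (j + 1) : ℕ) : R) * (((j + 1).factorial : ℕ) : R) *
      ((m.factorial : ℕ) : R) = (((j + 1 + m).factorial : ℕ) : R) := by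
    have h0 : (j + 1 + m).choose (j + 1) * (j + 1).factorial * m.factorial =
        (j + 1 + m).factorial := by
      have h1 := Nat.choose_mul_factorial_mul_factorial (show j + 1 ≤ j + 1 + m by omega)
      rwa [show j + 1 + m - (j + 1) = m by omega] at h1
    exact_mod_cast congrArg (Nat.cast (R := R)) h0
  have u12 : IsUnit ((((j + 1 + m).factorial : ℕ) : R) * (((j + 1).factorial : ℕ) : R) *
      ((m.factorial : ℕ) : R)) := (u1.mul u2).mul u3
  apply u12.mul_left_cancel
  have i1 := Ring.inverse_mul_cancel _ u1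
  have i2 := Ring.inverse_mul_cancel _ u2
  have i3 := Ring.inverse_mul_cancel _ u3
  calc (((j + 1 + m).factorial : ℕ) : R) * (((j + 1).factorial : ℕ) : R) * ((m.factorial : ℕ) : R) *
      (Ring.inverse (((j + 1 + m).factorial : ℕ) : R) * (((j + 1 + m).choose (j + 1) : ℕ) : R))
      = (Ring.inverse (((j + 1 + m).factorial : ℕ) : R) * (((j + 1 + m).factorial : ℕ) : R)) *
        ((((j + 1 + m).choose (j + 1) : ℕ) : R) * (((j + 1).factorial : ℕ) : R) *
          ((m.factorial : ℕ) : R)) := by ring
    _ = (((j + 1 + m).factorial : ℕ) : R) := by rw [i1, e, one_mul]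
    _ = (((j + 1 + m).factorial : ℕ) : R) * (Ring.inverse (((j + 1).factorial : ℕ) : R) *
        (((j + 1).factorial : ℕ) : R)) * (Ring.inverse ((m.factorial : ℕ) : R) *
          ((m.factorial : ℕ) : R)) := by rw [i2, i3, mul_one, mul_one]
    _ = _ := by ring

/-- the derivation on powers -/
theorem D_pow (D : S →ₗ[R] S) (hD : ∀ a b, D (a * b) = D a * b + a * D b) (z : S) (n : ℕ) :
    D (z ^ n) = ∑ j ∈ range n, (n.choose (j + 1)) • (adp z j (D z) * z ^ (n - 1 - j)) := by
  induction n with
  | zero =>
    have h1 := hD 1 1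
    simp only [mul_one, one_mul] at h1
    have h2 : D 1 = 0 := by
      have : D 1 + D 1 = D 1 + 0 := by rw [add_zero]; exact h1.symm
      exact add_left_cancel this
    simpa using h2
  | succ n ih =>
    have key : ∀ j, z * (adp z j (D z)) = adp z j (D z) * z + adp z (j + 1) (D z) := by
      intro j
      rw [adp_succ]
      unfold cm
      abel
    have e1 : z * D (z ^ n) = ∑ j ∈ range n, (n.choose (j + 1)) • (adp z j (D z) * z ^ (n - j)) +
        ∑ j ∈ range n, (n.choose (j + 1)) • (adp z (j + 1) (D z) * z ^ (n - (j + 1))) := by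
      rw [ih, Finset.mul_sum, ← Finset.sum_add_distrib]
      refine Finset.sum_congr rfl fun j hj => ?_
      have hj' := Finset.mem_range.mp hj
      rw [mul_smul_comm, ← mul_assoc, key, add_mul, smul_add]
      congr 2
      · rw [mul_assoc, ← pow_succ']
        congr 2
        omega
      · congr 2
        omega
    rw [pow_succ', hD, e1]
    have e2 : ∑ j ∈ range (n + 1), ((n + 1).choose (j + 1)) • (adp z j (D z) * z ^ (n + 1 - 1 - j)) =
        ∑ j ∈ range (n + 1), (n.choose j) • (adp z j (D z) * z ^ (n - j)) +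
        ∑ j ∈ range (n + 1), (n.choose (j + 1)) • (adp z j (D z) * z ^ (n - j)) := by
      rw [← Finset.sum_add_distrib]
      refine Finset.sum_congr rfl fun j _ => ?_
      rw [Nat.choose_succ_succ, add_smul, Nat.add_sub_cancel]
    rw [e2, Finset.sum_range_succ', Finset.sum_range_succ (fun j => (n.choose (j + 1)) •
      (adp z j (D z) * z ^ (n - j))) n]
    simp only [Nat.choose_succ_self, zero_smul, add_zero, Nat.choose_zero_right, one_smul, adp_zero,
      Nat.sub_zero]
    abel

end basics

theorem t_ODE : S_ODE := by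
  intro R S _ _ _ c A D hD z hz hw
  unfold ex
  rw [map_sum]
  have e1 : ∀ n ∈ range (c + 1), D (Ring.inverse ((n.factorial : ℕ) : R) • z ^ n) =
      ∑ j ∈ range n, Ring.inverse ((n.factorial : ℕ) : R) •
        ((n.choose (j + 1)) • (adp z j (D z) * z ^ (n - 1 - j))) := by
    intro n _
    rw [map_smul, D_pow D hD, Finset.smul_sum]
  rw [Finset.sum_congr rfl e1, Finset.sum_range_succ']
  simp only [Finset.range_zero, Finset.sum_empty, add_zero]
  have e2 : ∀ n ∈ range c, (∑ j ∈ range (n + 1), Ring.inverse (((n + 1).factorial : ℕ) : R) •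
        (((n + 1).choose (j + 1)) • (adp z j (D z) * z ^ (n + 1 - 1 - j)))) =
      ∑ j ∈ range (n + 1), (fun j m => (Ring.inverse (((j + 1).factorial : ℕ) : R) *
        Ring.inverse ((m.factorial : ℕ) : R)) • (adp z j (D z) * z ^ m)) j (n - j) := by
    intro n hn
    have hn' := Finset.mem_range.mp hn
    refine Finset.sum_congr rfl fun j hj => ?_
    have hj' := Finset.mem_range.mp hj
    obtain ⟨m, rfl⟩ : ∃ m, n = j + m := ⟨n - j, by omega⟩
    have h := inv_choose A (j := j) (m := m) (by omega)
    have e3 : j + m - j = m := by omega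
    have e4 : j + m + 1 - 1 - j = m := by omega
    have e5 : j + m + 1 = j + 1 + m := by omega
    rw [e4, e5]
    simp only [e3]
    rw [← h, mul_smul, Nat.cast_smul_eq_nsmul]
  rw [Finset.sum_congr rfl e2, Finset.sum_range_diag_flip c (fun j m =>
    (Ring.inverse (((j + 1).factorial : ℕ) : R) * Ring.inverse ((m.factorial : ℕ) : R)) •
      (adp z j (D z) * z ^ m)), Finset.sum_mul]
  refine Finset.sum_congr rfl fun j hj => ?_
  have hj' := Finset.mem_range.mp hj
  rw [Finset.mul_sum]
  have hsub : range (c - j) ⊆ range (c + 1) := by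
    intro a ha
    rw [Finset.mem_range] at ha ⊢
    omega
  rw [← Finset.sum_subset hsub]
  · refine Finset.sum_congr rfl fun m _ => ?_
    simp only [smul_mul_smul_comm]
  · intro m hm hm'
    rw [Finset.mem_range] at hm hm'
    have h1 := A.mul (j + 1) m _ _ (adp_mem A hz hw j) (pow_mem A hz m)
    rw [F_bot A (by omega), Submodule.mem_bot] at h1
    rw [smul_mul_smul_comm, h1, smul_zero]

end H96.LZ
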